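import Pool.Agent.N213.BM.Fin4
import Pool.Agent.N213.BM.Core4
import Pool.Agent.N213.BM.Res4
import Pool.Agent.N213.BM.Win4
import Pool.Agent.N213.BM.RigK

/-! # Möbius disjointness of generalized Morse systems with infinitely many long blocks with few changes -/

set_option autoImplicit false

namespace Pool.Agent.Results.MP_f13728_an.FewChanges

open Finset Filter Topology

/-- the product `B × C` of two words over `{0,1}` (`false = 0`, `true = 1`):
`(B + C(0)) (B + C(1)) ⋯ (B + C(l - 1))` -/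
def mul (B C : List Bool) : List Bool := C.flatMap fun c => B.map fun b => xor b c

/-- the word `b s × b (s + 1) × ⋯ × b (s + n)` -/
def prod (b : ℕ → List Bool) (s : ℕ) : ℕ → List Bool
  | 0 => b s
  | n + 1 => mul (prod b s n) (b (s + (n + 1)))

/-- `x` is the generalized Morse sequence `b 0 × b 1 × b 2 × ⋯`: all blocks have length at least 2
and begin with `0`, and all finite products are prefixes of `x` -/
def IsMorse (b : ℕ → List Bool) (x : ℕ → Bool) : Prop :=
  (∀ i, 2 ≤ (b i).length) ∧ (∀ i, (b i)[0]? = some false) ∧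
  ∀ n k, k < (prod b 0 n).length → (prod b 0 n)[k]? = some (x k)

/-- the closure of the orbit of `x` under the shift -/
def X (x : ℕ → Bool) : Set (ℕ → Bool) := closure (Set.range fun c : ℕ => fun n : ℕ => x (n + c))

/-- the letter number `v` of `w`; if `e` is true, the letter number `v` of `w + 0101⋯` -/
def letter (e : Bool) (w : List Bool) (v : ℕ) : Bool :=
  xor (w[v]?.getD false) (decide (v % 2 = 1) && e)

/-- one of the two words `w` and `w + 0101⋯` has at most `K` pairs of different neighbours, at least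
`δ |w|` letters `0` and at least `δ |w|` letters `1` -/
def Tame (K : ℕ) (δ : ℝ) (w : List Bool) : Prop := ∃ e : Bool,
  ((range (w.length - 1)).filter (fun v => letter e w (v + 1) ≠ letter e w v)).card ≤ K ∧
  ∀ c : Bool, δ * w.length ≤ (((range w.length).filter (fun v => letter e w v = c)).card : ℝ)

theorem prod_eq (b : ℕ → List Bool) (s n : ℕ) : prod b s n = Pool.Agent.N213.BM.tl b s n := by
  induction n with
  | zero => rfl
  | succ n ih =>
    show mul (prod b s n) (b (s + (n + 1))) = _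
    rw [ih]
    rfl

theorem prod_zero (b : ℕ → List Bool) (n : ℕ) : prod b 0 n = Pool.Agent.N213.BM.bprod b n := by
  rw [prod_eq]
  unfold Pool.Agent.N213.BM.tl
  congr 1
  funext i
  rw [zero_add]

theorem shift_mem {x y : ℕ → Bool} (hy : y ∈ X x) : (fun k => y (k + 1)) ∈ X x := by
  have hc : Continuous (fun z : ℕ → Bool => fun k : ℕ => z (k + 1)) :=
    continuous_pi fun k => continuous_apply (k + 1)
  have h1 : Set.MapsTo (fun z : ℕ → Bool => fun k : ℕ => z (k + 1))
      (Set.range fun c : ℕ => fun n : ℕ => x (n + c))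
      (Set.range fun c : ℕ => fun n : ℕ => x (n + c)) := by
    rintro _ ⟨c, rfl⟩
    refine ⟨c + 1, ?_⟩
    funext n
    show x (n + (c + 1)) = x (n + 1 + c)
    rw [show n + (c + 1) = n + 1 + c by omega]
  exact h1.closure hc hy

/-- the shift on the closure of the orbit of `x` -/
def S (x : ℕ → Bool) : X x → X x := fun y => ⟨fun k => y.1 (k + 1), shift_mem y.2⟩

theorem iter_S (x : ℕ → Bool) (n : ℕ) (y : X x) :
    ((S x)^[n] y).1 = fun k => y.1 (n + k) := by
  induction n generalizing y with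
  | zero => simp
  | succ n ih =>
    rw [Function.iterate_succ_apply, ih]
    funext k
    show y.1 (n + k + 1) = y.1 (n + 1 + k)
    rw [show n + k + 1 = n + 1 + k by omega]

theorem result (b : ℕ → List Bool) (x : ℕ → Bool) (hx : IsMorse b x) (K : ℕ) (δ : ℝ) (hδ : 0 < δ)
    (hb : ∀ T : ℕ, ∃ s n, T ≤ s ∧ T ≤ (prod b s n).length ∧ Tame K δ (prod b s n)) :
    ∀ f : C(X x, ℂ), ∀ ε : ℝ, 0 < ε → ∃ N₀ : ℕ, ∀ N : ℕ, N₀ ≤ N → ∀ y : X x,
      ‖(1 / (N : ℂ)) * ∑ n ∈ Ioc 0 N,
        ((ArithmeticFunction.moebius n : ℤ) : ℂ) * f ((S x)^[n] y)‖ ≤ ε := by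
  have hm : Pool.Agent.N213.BM.IsMorse b x := by
    refine ⟨hx.1, hx.2.1, fun n k hk => ?_⟩
    have := hx.2.2 n k
    rw [prod_zero] at this
    exact this hk
  have hclos : Pool.Agent.N213.BM.CLOS x := by
    refine Pool.Agent.N213.BM.clos_bal (Pool.Agent.N213.BM.rigk Pool.Agent.N213.BM.core4
      Pool.Agent.N213.BM.res4 Pool.Agent.N213.BM.win4) hm K δ hδ fun T => ?_
    obtain ⟨s, n, h1, h2, h3⟩ := hb T
    rw [prod_eq] at h2 h3
    exact ⟨s, n, h1, h2, h3⟩
  intro f ε hε
  obtain ⟨N₀, h0⟩ := hclos f ε hε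
  refine ⟨max N₀ 1, fun N hN y => ?_⟩
  have hN1 : 1 ≤ N := (le_max_right _ _).trans hN
  have hNpos : (0 : ℝ) < N := by exact_mod_cast hN1
  have hy : ∀ n : ℕ, (fun k : ℕ => y.1 (n + k)) ∈ Pool.Agent.N213.BM.orb x := by
    intro n
    have := ((S x)^[n] y).2
    rw [iter_S] at this
    exact this
  have h1 := h0 N ((le_max_left _ _).trans hN) y.1 hy
  have e : ∀ n : ℕ, f ((S x)^[n] y) = f ⟨fun k : ℕ => y.1 (n + k), hy n⟩ := by
    intro n
    congr 1
    exact Subtype.ext (iter_S x n y)
  simp_rw [e]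
  rw [norm_mul, norm_div, norm_one, Complex.norm_natCast, one_div, inv_mul_le_iff₀ hNpos, mul_comm]
  exact h1

end Pool.Agent.Results.MP_f13728_an.FewChanges
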